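import Mathlib
import Pool.Agent.Lib_helper68.OG16

/-!
# CV (MP_931ca8_lc): sets of size `θ` outside a set of size `θ⁺` do not kill
-/

set_option autoImplicit false
set_option linter.unusedSectionVars false
set_option linter.deprecated false

open Cardinal Ordinal Set

namespace Pool.Agent.CV

open Pool.Agent.H68.OG

variable {V : Type}

/-- any two ancestors of a point are comparable -/
def Chn (f : V → Finset V) : Prop :=
  ∀ v, ∀ x ∈ f v, ∀ y ∈ f v, x = y ∨ x ∈ f y ∨ y ∈ f x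

/-- The part of `D` without ancestor in `Z`. -/
def Off (f : V → Finset V) (D Z : Set V) : Set V := {v | v ∈ D ∧ ∀ u ∈ f v, u ∉ Z}

theorem card_iUnion_le_of {ι : Type} {θ χ : Cardinal.{0}} (hχ : ℵ₀ ≤ χ) (hι : #ι ≤ χ)
    (hθ : θ ≤ χ) (Z : ι → Set V) (hZ : ∀ i, #(Z i) ≤ θ) : #(⋃ i, Z i) ≤ χ := by
  refine (Cardinal.mk_iUnion_le Z).trans ?_
  refine (mul_le_mul' hι ((ciSup_le' hZ).trans hθ)).trans ?_
  exact (Cardinal.mul_eq_self hχ).le

theorem card_out_le {θ : Cardinal.{0}} (hθ : ℵ₀ ≤ θ) (f : V → Finset V) (Z : Set V)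
    (hZ : #Z ≤ θ) : #(⋃ z : Z, (f z.1 : Set V)) ≤ θ := by
  refine card_iUnion_le_of hθ hZ hθ _ fun z => ?_
  exact ((Finset.finite_toSet (f z.1)).lt_aleph0.le).trans le_rfl

variable [LinearOrder V] [WellFoundedLT V] [Nonempty V]

/-- Two disjoint killers are related. -/
theorem related {f : V → Finset V} (hf : Chn f) {D Z Z' : Set V} {s : Ordinal.{0}}
    (hD : TG D (ω ^ s)) (hd : ∀ z ∈ Z, z ∉ Z') (h1 : ∀ z ∈ Z, z ∉ ⋃ y : Z', (f y.1 : Set V))
    (h2 : ∀ z ∈ Z', z ∉ ⋃ y : Z, (f y.1 : Set V)) :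
    TG (Off f D Z) (ω ^ s) ∨ TG (Off f D Z') (ω ^ s) := by
  have h := two_parts Cardinal.isRegular_aleph0 {v | ∀ u ∈ f v, u ∉ Z} {v | ∀ u ∈ f v, u ∉ Z'}
    s D (by
      intro v _
      by_contra hcon
      rw [Set.mem_union, not_or] at hcon
      simp only [Set.mem_ofPred_eq, not_forall, not_not] at hcon
      obtain ⟨⟨x, hx, hxZ⟩, ⟨y, hy, hyZ⟩⟩ := hcon
      rcases hf v x hx y hy with h | h | h
      · subst h
        exact hd x hxZ hyZ
      · exact h1 x hxZ (Set.mem_iUnion.2 ⟨⟨y, hyZ⟩, by simpa using h⟩)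
      · exact h2 y hyZ (Set.mem_iUnion.2 ⟨⟨x, hxZ⟩, by simpa using h⟩))
    (by rwa [Cardinal.ord_aleph0])
  rw [Cardinal.ord_aleph0] at h
  exact h

/-- The kernel for sets of size at most `θ`. -/
theorem exists_kern {θ : Cardinal.{0}} (hθ : ℵ₀ ≤ θ) {f : V → Finset V} (hf : Chn f)
    {D : Set V} {s : Ordinal.{0}} (hD : TG D (ω ^ s)) :
    ∃ E : Set V, #E ≤ Order.succ θ ∧ ∀ Z : Set V, #Z ≤ θ → (∀ z ∈ Z, z ∉ E) →
      TG (Off f D Z) (ω ^ s) := by
  classical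
  by_contra hcon
  push Not at hcon
  set χ := Order.succ θ with hχ
  have hχ0 : ℵ₀ ≤ χ := hθ.trans (Order.le_succ θ)
  have hg : ∀ E : Set V, ∃ Z : Set V, #E ≤ χ → (#Z ≤ θ ∧ (∀ z ∈ Z, z ∉ E) ∧
      ¬ TG (Off f D Z) (ω ^ s)) := by
    intro E
    by_cases hE : #E ≤ χ
    · obtain ⟨Z, h1, h2, h3⟩ := hcon E hE
      exact ⟨Z, fun _ => ⟨h1, h2, h3⟩⟩
    · exact ⟨∅, fun h => absurd h hE⟩
  choose g hg using hg
  let M := (Order.succ χ).ord.ToType
  have hMc : #M = Order.succ χ := by rw [Cardinal.mk_toType, Cardinal.card_ord]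
  have hwf : WellFounded (fun a b : M => a < b) := wellFounded_lt
  let Zs : M → Set V := hwf.fix (fun k rec => g (⋃ k' : {k' : M // k' < k}, rec k'.1 k'.2))
  have hZs : ∀ k, Zs k = g (⋃ k' : {k' : M // k' < k}, Zs k'.1) := by
    intro k
    exact hwf.fix_eq _ k
  have hinit : ∀ k : M, #{k' : M // k' < k} ≤ χ := by
    intro k
    have h1 : #(Iio k) < Order.succ χ := Cardinal.mk_Iio_toType_ord_lt k
    exact Order.lt_succ_iff.1 h1
  have hθχ : θ ≤ χ := Order.le_succ θ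
  have hsmall : ∀ k, #(Zs k) ≤ θ := by
    intro k
    induction k using WellFoundedLT.induction with
    | ind k IH =>
      rw [hZs k]
      exact (hg _ (card_iUnion_le_of hχ0 (hinit k) hθχ _ fun k' => IH k'.1 k'.2)).1
  have hun : ∀ k, #(⋃ k' : {k' : M // k' < k}, Zs k'.1) ≤ χ := fun k =>
    card_iUnion_le_of hχ0 (hinit k) hθχ _ fun k' => hsmall k'.1
  have hdisj' : ∀ k' k, k' < k → ∀ z ∈ Zs k, z ∉ Zs k' := by
    intro k' k hk z hz hz'
    rw [hZs k] at hz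
    refine (hg _ (hun k)).2.1 z hz ?_
    simp only [Set.mem_iUnion]
    exact ⟨⟨k', hk⟩, hz'⟩
  have hdisj : ∀ k' k, k' ≠ k → ∀ z ∈ Zs k, z ∉ Zs k' := by
    intro k' k hk z hz hz'
    rcases lt_or_gt_of_ne hk with h | h
    · exact hdisj' k' k h z hz hz'
    · exact hdisj' k k' h z hz' hz
  have hkill : ∀ k, ¬ TG (Off f D (Zs k)) (ω ^ s) := by
    intro k
    have := (hg _ (hun k)).2.2
    rw [← hZs k] at this
    exact this
  -- the set mapping
  let F : M → Set M := fun k => {k' | ∃ z ∈ Zs k', z ∈ ⋃ y : Zs k, (f y.1 : Set V)}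
  have hF : ∀ k, #(F k) ≤ θ := by
    intro k
    refine le_trans ?_ (card_out_le hθ f (Zs k) (hsmall k))
    have hch : ∀ k' : F k, ∃ z : (⋃ y : Zs k, (f y.1 : Set V) : Set V), z.1 ∈ Zs k'.1 := by
      rintro ⟨k', z, hz, hz'⟩
      exact ⟨⟨z, hz'⟩, hz⟩
    choose z hz using hch
    refine Cardinal.mk_le_of_injective (f := z) ?_
    intro a b hab
    by_contra hne
    refine hdisj b.1 a.1 (fun h => hne (Subtype.ext h.symm)) _ (hz a) ?_
    rw [hab]
    exact hz b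
  obtain ⟨S, hS⟩ := Cardinal.le_mk_iff_exists_set.1
    (show χ ≤ #M by rw [hMc]; exact Order.le_succ χ)
  have hT : #(S ∪ ⋃ k : S, F k.1 : Set M) ≤ χ := by
    refine (Cardinal.mk_union_le _ _).trans ?_
    refine Cardinal.add_le_of_le hχ0 hS.le ?_
    exact card_iUnion_le_of hχ0 hS.le hθχ _ fun k => hF k.1
  have hex : ∃ k₁ : M, k₁ ∉ (S ∪ ⋃ k : S, F k.1 : Set M) := by
    by_contra hno
    push Not at hno
    have huniv : (S ∪ ⋃ k : S, F k.1 : Set M) = Set.univ := Set.eq_univ_of_forall hno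
    rw [huniv, Cardinal.mk_univ, hMc] at hT
    exact absurd hT (not_le.2 (Order.lt_succ χ))
  obtain ⟨k₁, hk₁⟩ := hex
  rw [Set.mem_union, not_or] at hk₁
  have hex2 : ∃ k ∈ S, k ∉ F k₁ := by
    by_contra hno
    push Not at hno
    have h1 := (Cardinal.mk_le_mk_of_subset hno).trans (hF k₁)
    rw [hS] at h1
    exact absurd h1 (not_le.2 (Order.lt_succ θ))
  obtain ⟨k, hkS, hkF⟩ := hex2
  have hk₁F : k₁ ∉ F k := fun h => hk₁.2 (Set.mem_iUnion.2 ⟨⟨k, hkS⟩, h⟩)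
  have hne : k ≠ k₁ := by
    rintro rfl
    exact hk₁.1 hkS
  rcases related hf hD (Z := Zs k) (Z' := Zs k₁) (fun z hz => hdisj _ _ hne.symm z hz)
    (fun z hz hz' => hkF ⟨z, hz, hz'⟩) (fun z hz hz' => hk₁F ⟨z, hz, hz'⟩) with h | h
  · exact hkill _ h
  · exact hkill _ h

end Pool.Agent.CV
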