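import Mathlib
import Pool.Agent.Lib_helper80.CV.Kill

/-!
# CV (MP_931ca8_lc): reducing a task `ω ^ s` to few tasks with smaller exponents
-/

set_option autoImplicit false
set_option linter.unusedSectionVars false
set_option linter.deprecated false

open Cardinal Ordinal Set

namespace Pool.Agent.CV

open Pool.Agent.H68.OG

/-- The task `(D, ω ^ s)` can be reduced to at most `μ` tasks whose exponents are less than `s`
and at least `t`. -/
def Expd (V : Type) [LinearOrder V] (t s : Ordinal.{0}) (μ : Cardinal.{0}) : Prop :=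
  ∀ D : Set V, TG D (ω ^ s) → ∃ (ι : Type) (J : ι → Set V) (b : ι → Ordinal.{0}), #ι ≤ μ ∧
    (∀ i, b i < s) ∧ (∀ i, t ≤ b i) ∧ (∀ i, J i ⊆ D) ∧ (∀ i, TG (J i) (ω ^ b i)) ∧
    ∀ X : Set V, (∀ i, TG (X ∩ J i) (ω ^ b i)) → TG (X ∩ D) (ω ^ s)

variable {V : Type} [LinearOrder V] [WellFoundedLT V] [Nonempty V]

theorem expd_succ {t s : Ordinal.{0}} (h : t ≤ s) : Expd V t (Order.succ s) ℵ₀ := by
  intro D hD
  have hD' : TG D (ω ^ s * (ℵ₀ : Cardinal.{0}).ord) := by
    rw [Cardinal.ord_aleph0, ← Ordinal.opow_succ]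
    exact hD
  obtain ⟨B, hBD, hBt, hBm⟩ := hD'.blocks
  refine ⟨(ℵ₀ : Cardinal.{0}).ord.ToType, B, fun _ => s, ?_, fun _ => Order.lt_succ s,
    fun _ => h, hBD, hBt, ?_⟩
  · rw [Cardinal.mk_toType, Cardinal.card_ord]
  · intro X hX
    have h5 : TG (X ∩ D) (ω ^ s * (ℵ₀ : Cardinal.{0}).ord) := by
      refine tg_of_blocks hBm Set.univ ?_ ?_
      · rw [Cardinal.mk_univ, Cardinal.mk_toType, Cardinal.card_ord]
      · intro i _
        refine (hX i).mono ?_
        rintro v ⟨hv1, hv2⟩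
        exact ⟨⟨hv1, hBD i hv2⟩, hv2⟩
    rw [Ordinal.opow_succ]
    rwa [Cardinal.ord_aleph0] at h5

theorem expd_limit {t s : Ordinal.{0}} (ht : t < s) (hs : Order.IsSuccLimit s) :
    Expd V t s s.cof := by
  intro D hD
  obtain ⟨S, hS, hSc⟩ := Order.exists_cof_eq s.ToType
  rw [Ordinal.cof_toType] at hSc
  let b : S → Ordinal.{0} := fun i => max t (Ordinal.ToType.mk.symm i.1).1
  have hb : ∀ i, b i < s := fun i => max_lt ht (Ordinal.ToType.mk.symm i.1).2
  refine ⟨S, fun _ => D, b, hSc.le, hb, fun i => le_max_left _ _, fun _ => subset_rfl, ?_, ?_⟩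
  · intro i
    exact hD.le (Ordinal.opow_le_opow_right Ordinal.omega0_pos (hb i).le)
  · intro X hX
    refine tg_of_forall_lt ?_
    intro c hc
    obtain ⟨a, ha, hca⟩ := (Ordinal.lt_opow_of_isSuccLimit Ordinal.omega0_ne_zero hs).1 hc
    obtain ⟨y, hy, hay⟩ := hS (Ordinal.ToType.mk ⟨a, ha⟩)
    have h1 := (Ordinal.ToType.mk (o := s)).symm.monotone hay
    simp only [OrderIso.symm_apply_apply] at h1
    refine ⟨_, ?_, hX ⟨y, hy⟩⟩
    refine lt_of_lt_of_le hca (Ordinal.opow_le_opow_right Ordinal.omega0_pos ?_)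
    exact le_trans h1 (le_max_right _ _)

theorem cof_lt {κ : Cardinal.{0}} (hκ : ¬ κ.IsRegular) {s : Ordinal.{0}}
    (hs : Order.IsSuccLimit s) (hc : s.card ≤ κ) : s.cof < κ := by
  refine lt_of_le_of_ne ((Ordinal.cof_le_card s).trans hc) ?_
  intro h
  exact hκ (h ▸ Cardinal.isRegular_cof hs)

/-- At a singular cardinal every task is reducible to few tasks. -/
theorem exists_expd {κ : Cardinal.{0}} (hκ : ¬ κ.IsRegular) (hκ0 : ℵ₀ < κ) {t s : Ordinal.{0}}
    (ht : t < s) (hc : s.card ≤ κ) : ∃ μ < κ, Expd V t s μ := by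
  rcases Ordinal.zero_or_succ_or_isSuccLimit s with rfl | ⟨s', rfl⟩ | hl
  · exact absurd ht (not_lt.2 zero_le)
  · exact ⟨ℵ₀, hκ0, expd_succ (Order.lt_succ_iff.1 ht)⟩
  · exact ⟨s.cof, cof_lt hκ hl hc, expd_limit ht hl⟩

end Pool.Agent.CV
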