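import Mathlib
import Pool.Agent.Lib_helper80.CV.Expand

/-!
# CV (MP_931ca8_lc): one step of the construction
-/

set_option autoImplicit false
set_option linter.unusedSectionVars false
set_option linter.deprecated false

open Cardinal Ordinal Set

namespace Pool.Agent.CV

open Pool.Agent.H68.OG

variable {V : Type} [LinearOrder V] [WellFoundedLT V] [Nonempty V]

theorem tg_card {κ : Cardinal.{0}} {S : Set V} : TG S κ.ord ↔ κ ≤ #S := by
  rw [tg_iff, Cardinal.ord_le]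
  unfold typ
  rw [Ordinal.card_type]

/-- choosing `θ` many points from each block -/
theorem choose_points {κ θ : Cardinal.{0}} (hθ : ℵ₀ ≤ θ) (hθκ : Order.succ θ < κ)
    {f : V → Finset V} {C E : Set V} {P : Type} (hP : #P ≤ θ) (B : P → Set V)
    (hE : #E ≤ Order.succ θ)
    (hB : ∀ p (Z : Set V), #Z ≤ θ → (∀ z ∈ Z, z ∉ E) → κ ≤ #(Off f (C ∩ B p) Z)) :
    ∃ X : Set V, X ⊆ C ∧ #X ≤ θ ∧ (∀ x ∈ X, x ∉ E) ∧ (∀ x ∈ X, ∀ y ∈ X, x ≠ y → y ∉ f x) ∧
      ∀ p, θ ≤ #(X ∩ B p : Set V) := by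
  classical
  rcases isEmpty_or_nonempty P with hN | hN
  · exact ⟨∅, Set.empty_subset C, by simp, fun x hx => absurd hx (Set.notMem_empty x),
      fun x hx => absurd hx (Set.notMem_empty x), fun p => hN.elim p⟩
  obtain ⟨e, he⟩ := exists_schedule hθ P hP hN
  have hχ : ℵ₀ ≤ Order.succ θ := hθ.trans (Order.le_succ θ)
  obtain ⟨N, hN'⟩ := exists_rec' (W := θ.ord.ToType) (Y := V)
    (fun c g y => (∀ d < c, g d ∉ E) → y ∈ C ∩ B (e c) ∧ y ∉ E ∧
      ∀ d < c, g d ≠ y ∧ g d ∉ f y ∧ y ∉ f (g d))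
    (by
      intro c g
      by_cases hg : ∀ d < c, g d ∉ E
      · have hZ : #(g '' Iio c) ≤ θ :=
          Cardinal.mk_image_le.trans (Cardinal.mk_Iio_toType_ord_lt c).le
        have h1 := hB (e c) (g '' Iio c) hZ (by
          rintro _ ⟨d, hd, rfl⟩
          exact hg d hd)
        have hbad : #(E ∪ (g '' Iio c ∪ ⋃ z : (g '' Iio c : Set V), (f z.1 : Set V)) : Set V)
            ≤ Order.succ θ := by
          refine (Cardinal.mk_union_le _ _).trans (Cardinal.add_le_of_le hχ hE ?_)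
          refine (Cardinal.mk_union_le _ _).trans (Cardinal.add_le_of_le hχ ?_ ?_)
          · exact hZ.trans (Order.le_succ θ)
          · exact (card_out_le hθ f _ hZ).trans (Order.le_succ θ)
        have h2 : ∃ y ∈ Off f (C ∩ B (e c)) (g '' Iio c),
            y ∉ (E ∪ (g '' Iio c ∪ ⋃ z : (g '' Iio c : Set V), (f z.1 : Set V)) : Set V) := by
          by_contra hno
          push Not at hno
          exact absurd (h1.trans (Cardinal.mk_le_mk_of_subset hno))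
            (not_le.2 (hbad.trans_lt hθκ))
        obtain ⟨y, hy, hyb⟩ := h2
        rw [Set.mem_union, Set.mem_union, not_or, not_or] at hyb
        refine ⟨y, fun _ => ⟨hy.1, hyb.1, fun d hd => ⟨?_, ?_, ?_⟩⟩⟩
        · rintro rfl
          exact hyb.2.1 ⟨d, hd, rfl⟩
        · intro h
          exact hy.2 _ h ⟨d, hd, rfl⟩
        · intro h
          exact hyb.2.2 (Set.mem_iUnion.2 ⟨⟨g d, d, hd, rfl⟩, by simpa using h⟩)
      · exact ⟨Classical.arbitrary V, fun h => absurd h hg⟩)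
    (by
      intro c g g' y h hy hg
      have hg' : ∀ d < c, g d ∉ E := fun d hd => by
        rw [h d hd]
        exact hg d hd
      obtain ⟨h1, h2, h3⟩ := hy hg'
      refine ⟨h1, h2, fun d hd => ?_⟩
      rw [← h d hd]
      exact h3 d hd)
  have hNE : ∀ c, N c ∉ E := by
    intro c
    induction c using WellFoundedLT.induction with
    | ind c IH => exact (hN' c IH).2.1
  have hNs : ∀ c, N c ∈ C ∩ B (e c) ∧ N c ∉ E ∧
      ∀ d < c, N d ≠ N c ∧ N d ∉ f (N c) ∧ N c ∉ f (N d) := fun c => hN' c fun d _ => hNE d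
  refine ⟨Set.range N, ?_, ?_, ?_, ?_, ?_⟩
  · rintro _ ⟨c, rfl⟩
    exact (hNs c).1.1
  · refine Cardinal.mk_range_le.trans ?_
    rw [Cardinal.mk_toType, Cardinal.card_ord]
  · rintro _ ⟨c, rfl⟩
    exact hNE c
  · rintro _ ⟨c, rfl⟩ _ ⟨d, rfl⟩ hne
    rcases lt_trichotomy c d with h | h | h
    · exact ((hNs d).2.2 c h).2.2
    · subst h
      exact absurd rfl hne
    · exact ((hNs c).2.2 d h).2.1
  · intro p
    refine (he p).trans ?_
    refine Cardinal.mk_le_of_injective (f := fun c : {c | e c = p} =>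
      (⟨N c.1, ⟨c.1, rfl⟩, ?_⟩ : (Set.range N ∩ B p : Set V))) ?_
    · have h1 := (hNs c.1).1.2
      rw [show e c.1 = p from c.2] at h1
      exact h1
    · intro a b hab
      have h1 : N a.1 = N b.1 := congrArg Subtype.val hab
      by_contra hne
      rcases lt_or_gt_of_ne (fun h => hne (Subtype.ext h) : a.1 ≠ b.1) with h | h
      · exact ((hNs b.1).2.2 a.1 h).1 h1
      · exact ((hNs a.1).2.2 b.1 h).1 h1.symm

theorem Expd.mono {t s : Ordinal.{0}} {μ θ : Cardinal.{0}} (h : μ ≤ θ) (hE : Expd V t s μ) :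
    Expd V t s θ := by
  intro D hD
  obtain ⟨ι, J, b, h1, h2⟩ := hE D hD
  exact ⟨ι, J, b, h1.trans h, h2⟩

/-- One step: the state is the set `C` of the points which can still be used, and the set `R`
of the tasks. -/
theorem step {κ θ : Cardinal.{0}} (hθ : ℵ₀ ≤ θ) (hθκ : Order.succ θ < κ)
    {f : V → Finset V} (hf : Chn f) {t : Ordinal.{0}} (ht : (ω : Ordinal.{0}) ^ t = κ.ord)
    {L : Type} (o : L → Ordinal.{0}) (ho : ∀ l b, b ≤ o l → ∃ l', o l' = b)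
    {C : Set V} {R : Set (Set V × L)} (hR : #R ≤ θ) (hRt : ∀ p ∈ R, t ≤ o p.2)
    (hRT : ∀ p ∈ R, TG (C ∩ p.1) (ω ^ o p.2)) :
    ∃ (X C' : Set V) (R' : Set (Set V × L)), X ⊆ C ∧ (∀ x ∈ X, ∀ y ∈ X, x ≠ y → y ∉ f x) ∧
      C' ⊆ C ∧ (∀ v ∈ C', v ∉ X ∧ (∀ u ∈ f v, u ∉ X) ∧ ∀ x ∈ X, v ∉ f x) ∧
      (∀ p ∈ R, o p.2 = t → θ ≤ #(X ∩ p.1 : Set V)) ∧ R ⊆ R' ∧ #R' ≤ θ ∧
      (∀ p ∈ R', t ≤ o p.2) ∧ (∀ p ∈ R', TG (C' ∩ p.1) (ω ^ o p.2)) ∧
      ∀ p ∈ R, Expd V t (o p.2) θ → ∃ (ι : Type) (q : ι → Set V × L), (∀ i, q i ∈ R') ∧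
        (∀ i, o (q i).2 < o p.2) ∧
        ∀ Y : Set V, (∀ i, TG (Y ∩ (q i).1) (ω ^ o (q i).2)) → TG (Y ∩ p.1) (ω ^ o p.2) := by
  classical
  have hχ : ℵ₀ ≤ Order.succ θ := hθ.trans (Order.le_succ θ)
  have hκ0 : ℵ₀ ≤ κ := hχ.trans hθκ.le
  have hθκ' : θ < κ := (Order.le_succ θ).trans_lt hθκ
  -- the kernels
  have hker : ∀ p : R, ∃ E : Set V, #E ≤ Order.succ θ ∧ ∀ Z : Set V, #Z ≤ θ →
      (∀ z ∈ Z, z ∉ E) → TG (Off f (C ∩ p.1.1) Z) (ω ^ o p.1.2) := fun p =>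
    exists_kern hθ hf (hRT p.1 p.2)
  choose E hE hEk using hker
  have hEc : #(⋃ p, E p) ≤ Order.succ θ :=
    card_iUnion_le_of hχ (hR.trans (Order.le_succ θ)) le_rfl _ hE
  have hEk' : ∀ (p : R) (Z : Set V), #Z ≤ θ → (∀ z ∈ Z, z ∉ ⋃ p, E p) →
      TG (Off f (C ∩ p.1.1) Z) (ω ^ o p.1.2) := by
    intro p Z hZ hd
    exact hEk p Z hZ fun z hz hzE => hd z hz (Set.mem_iUnion.2 ⟨p, hzE⟩)
  -- the points
  obtain ⟨X, hXC, hXc, hXE, hXf, hXB⟩ := choose_points hθ hθκ (f := f) (C := C)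
    (P := {p : R // o p.1.2 = t}) ((Cardinal.mk_subtype_le _).trans hR) (fun p => p.1.1.1) hEc (by
      intro p Z hZ hd
      have h1 := hEk' p.1 Z hZ hd
      rw [p.2, ht, tg_card] at h1
      exact h1)
  set W : Set V := X ∪ ⋃ x : X, (f x.1 : Set V) with hW
  have hWc : #W < κ := by
    refine lt_of_le_of_lt ?_ hθκ'
    exact (Cardinal.mk_union_le _ _).trans (Cardinal.add_le_of_le hθ hXc (card_out_le hθ f X hXc))
  set C' : Set V := Off f C X \ W with hC'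
  have hlarge : ∀ p ∈ R, TG (C' ∩ p.1) (ω ^ o p.2) := by
    intro p hp
    have h1 := hEk' ⟨p, hp⟩ X hXc hXE
    have h2 : (ω : Ordinal.{0}) ^ o p.2 = κ.ord * ω ^ (o p.2 - t) := by
      rw [← ht, ← Ordinal.opow_add, Ordinal.add_sub_cancel_of_le (hRt p hp)]
    simp only at h1
    rw [h2] at h1 ⊢
    refine (TG.remove' hκ0 hWc _ _ h1).mono ?_
    rintro v ⟨⟨⟨h3, h4⟩, h5⟩, h6⟩
    exact ⟨⟨⟨h3, h5⟩, h6⟩, h4⟩
  -- the new tasks
  have hexp : ∀ p : R, ∃ Q : Set (Set V × L), #Q ≤ θ ∧ (∀ q ∈ Q, t ≤ o q.2) ∧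
      (∀ q ∈ Q, TG (C' ∩ q.1) (ω ^ o q.2)) ∧ (Expd V t (o p.1.2) θ →
        ∃ (ι : Type) (q : ι → Set V × L), (∀ i, q i ∈ Q) ∧ (∀ i, o (q i).2 < o p.1.2) ∧
        ∀ Y : Set V, (∀ i, TG (Y ∩ (q i).1) (ω ^ o (q i).2)) →
          TG (Y ∩ p.1.1) (ω ^ o p.1.2)) := by
    intro p
    by_cases hp : Expd V t (o p.1.2) θ
    · obtain ⟨ι, J, b, hι, hbs, hbt, hJ, hJT, hJX⟩ := hp _ (hlarge p.1 p.2)
      have hl : ∀ i, ∃ l, o l = b i := fun i => ho p.1.2 (b i) (hbs i).le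
      choose l hl using hl
      refine ⟨Set.range fun i => (J i, l i), Cardinal.mk_range_le.trans hι, ?_, ?_, fun _ =>
        ⟨ι, fun i => (J i, l i), fun i => ⟨i, rfl⟩, ?_, ?_⟩⟩
      · rintro _ ⟨i, rfl⟩
        rw [hl]
        exact hbt i
      · rintro _ ⟨i, rfl⟩
        simp only
        rw [hl]
        refine (hJT i).mono ?_
        intro v hv
        exact ⟨(hJ i hv).1, hv⟩
      · intro i
        simp only
        rw [hl]
        exact hbs i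
      · intro Y hY
        refine (hJX Y ?_).mono ?_
        · intro i
          have h1 := hY i
          simp only at h1
          rwa [hl] at h1
        · rintro v ⟨h1, h2⟩
          exact ⟨h1, h2.2⟩
    · exact ⟨∅, by simp, fun q hq => absurd hq (Set.notMem_empty q),
        fun q hq => absurd hq (Set.notMem_empty q), fun h => absurd h hp⟩
  choose Q hQc hQt hQT hQe using hexp
  refine ⟨X, C', R ∪ ⋃ p, Q p, hXC, hXf, ?_, ?_, ?_, Set.subset_union_left, ?_, ?_, ?_, ?_⟩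
  · intro v hv
    exact hv.1.1
  · intro v hv
    refine ⟨fun h => hv.2 (Or.inl h), hv.1.2, fun x hx h => hv.2 (Or.inr ?_)⟩
    exact Set.mem_iUnion.2 ⟨⟨x, hx⟩, by simpa using h⟩
  · intro p hp hpt
    exact hXB ⟨⟨p, hp⟩, hpt⟩
  · refine (Cardinal.mk_union_le _ _).trans (Cardinal.add_le_of_le hθ hR ?_)
    exact card_iUnion_le_of hθ hR le_rfl _ hQc
  · rintro p (hp | hp)
    · exact hRt p hp
    · obtain ⟨q, hq⟩ := Set.mem_iUnion.1 hp
      exact hQt q p hq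
  · rintro p (hp | hp)
    · exact hlarge p hp
    · obtain ⟨q, hq⟩ := Set.mem_iUnion.1 hp
      exact hQT q p hq
  · intro p hp hE
    obtain ⟨ι, q, h1, h2, h3⟩ := hQe ⟨p, hp⟩ hE
    exact ⟨ι, q, fun i => Or.inr (Set.mem_iUnion.2 ⟨_, h1 i⟩), h2, h3⟩

end Pool.Agent.CV
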