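import Mathlib
import Pool.Agent.Lib_helper80.CV.Step

/-!
# CV (MP_931ca8_lc): decomposition of multiples of `ω ^ t`, and a sequence of cardinals
-/

set_option autoImplicit false
set_option linter.unusedSectionVars false
set_option linter.deprecated false

open Cardinal Ordinal Set

namespace Pool.Agent.CV

open Pool.Agent.H68.OG

/-- Decomposition into finitely many sets of type `ω ^ s`, `t ≤ s ≤ α`. -/
def RT (t α : Ordinal.{0}) : Prop :=
  ∀ (V : Type) [LinearOrder V] [WellFoundedLT V] [Nonempty V] (A : Set V), TG A α →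
    ∃ (P : Type) (_ : Finite P) (B : P → Set V) (s : P → Ordinal.{0}), (∀ p, t ≤ s p) ∧
      (∀ p, s p ≤ α) ∧ (∀ p, B p ⊆ A) ∧ (∀ p, TG (B p) (ω ^ s p)) ∧
      ∀ X : Set V, (∀ p, TG (X ∩ B p) (ω ^ s p)) → TG (X ∩ A) α

theorem rt_zero {t : Ordinal.{0}} : RT t 0 := by
  intro V _ _ _ A _
  exact ⟨Empty, inferInstance, fun p => p.elim, fun p => p.elim, fun p => p.elim,
    fun p => p.elim, fun p => p.elim, fun p => p.elim, fun X _ => tg_zero _⟩

theorem rt_add {t a b : Ordinal.{0}} (ha : RT t a) (hb : RT t b) : RT t (a + b) := by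
  intro V _ _ _ A hA
  obtain ⟨S, T, hSA, hTA, hS, hT, hST⟩ := hA.split
  obtain ⟨P₁, f₁, B₁, s₁, h11, h12, h14, h15, h13⟩ := ha V S hS
  obtain ⟨P₂, f₂, B₂, s₂, h21, h22, h24, h25, h23⟩ := hb V T hT
  refine ⟨P₁ ⊕ P₂, inferInstance, fun p => Sum.elim B₁ B₂ p, fun p => Sum.elim s₁ s₂ p, ?_, ?_,
    ?_, ?_, ?_⟩
  · rintro (p | p)
    · exact h11 p
    · exact h21 p
  · rintro (p | p)
    · exact (h12 p).trans le_self_add
    · exact (h22 p).trans le_add_self
  · rintro (p | p)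
    · exact (h14 p).trans hSA
    · exact (h24 p).trans hTA
  · rintro (p | p)
    · exact h15 p
    · exact h25 p
  · intro X hX
    have h1 := h13 X fun p => hX (Sum.inl p)
    have h2 := h23 X fun p => hX (Sum.inr p)
    refine (h1.add h2 fun x hx y hy => hST x hx.2 y hy.2).mono ?_
    rintro x (hx | hx)
    · exact ⟨hx.1, hSA hx.2⟩
    · exact ⟨hx.1, hTA hx.2⟩

theorem rt_opow {t γ : Ordinal.{0}} (hγ : t ≤ γ) : RT t (ω ^ γ) := by
  intro V _ _ _ A hA
  exact ⟨Unit, inferInstance, fun _ => A, fun _ => γ, fun _ => hγ,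
    fun _ => Ordinal.right_le_opow γ Ordinal.one_lt_omega0, fun _ => subset_rfl, fun _ => hA,
    fun X hX => hX ()⟩

theorem rt_mul {t a : Ordinal.{0}} (ha : RT t a) (n : ℕ) : RT t (a * n) := by
  induction n with
  | zero => rw [Nat.cast_zero, mul_zero]; exact rt_zero
  | succ n ih => rw [Nat.cast_succ, mul_add, mul_one]; exact rt_add ih ha

theorem rt_all (t β : Ordinal.{0}) : ω ^ t ∣ β → RT t β := by
  induction β using WellFoundedLT.induction with
  | ind β IH =>
    intro hdvd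
    rcases eq_or_ne β 0 with rfl | hβ
    · exact rt_zero
    · set γ := Ordinal.log ω β with hγ
      have hpos : (ω : Ordinal.{0}) ^ γ ≠ 0 := (Ordinal.opow_pos γ Ordinal.omega0_pos).ne'
      have hle : ω ^ γ ≤ β := Ordinal.opow_log_le_self ω hβ
      have htγ : t ≤ γ :=
        Ordinal.le_log_of_opow_le Ordinal.one_lt_omega0 (Ordinal.le_of_dvd hβ hdvd)
      have hc : β / ω ^ γ < ω := Ordinal.div_opow_log_lt β Ordinal.one_lt_omega0
      have hmod : β % ω ^ γ < ω ^ γ := Ordinal.mod_lt β hpos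
      obtain ⟨n, hn⟩ := Ordinal.lt_omega0.1 hc
      have hdm := Ordinal.div_add_mod β (ω ^ γ)
      have hdb : (ω : Ordinal.{0}) ^ t ∣ ω ^ γ := Ordinal.opow_dvd_opow ω htγ
      have hdmod : ω ^ t ∣ β % ω ^ γ := by
        rw [← hdm] at hdvd
        exact (Ordinal.dvd_add_iff (Dvd.dvd.mul_right hdb _)).1 hdvd
      have h4 := rt_add (rt_mul (rt_opow htγ) n) (IH _ (hmod.trans_le hle) hdmod)
      rw [← hn, hdm] at h4
      exact h4

theorem exists_exp {κ : Cardinal.{0}} (hκ : ℵ₀ ≤ κ) :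
    ∃ t : Ordinal.{0}, (ω : Ordinal.{0}) ^ t = κ.ord := by
  have h := Ordinal.isPrincipal_add_iff_zero_or_omega0_opow.1
    (Ordinal.isPrincipal_add_ord hκ)
  rcases h with h | ⟨t, ht⟩
  · exact absurd h (zero_lt_one.trans (one_lt_ord' hκ)).ne'
  · exact ⟨t, ht⟩

/-- successors below a singular cardinal -/
theorem succ_lt_of_sing {κ x : Cardinal.{0}} (hκ : ¬ κ.IsRegular) (hx0 : ℵ₀ ≤ x) (hx : x < κ) :
    Order.succ x < κ := by
  refine lt_of_le_of_ne (Order.succ_le_of_lt hx) ?_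
  intro h
  exact hκ (h ▸ Cardinal.isRegular_succ hx0)

/-- a cofinal sequence of cardinals -/
theorem exists_seq {κ : Cardinal.{0}} (hκ0 : ℵ₀ < κ) (hcof : κ.ord.cof = ℵ₀) :
    ∃ k : ℕ → Cardinal.{0}, Monotone k ∧ (∀ n, ℵ₀ ≤ k n) ∧ (∀ n, k n < κ) ∧
      ∀ μ < κ, ∃ n, μ ≤ k n := by
  obtain ⟨S, hS, hSc⟩ := Order.exists_cof_eq κ.ord.ToType
  rw [Ordinal.cof_toType, hcof] at hSc
  have hcS : Countable S := Cardinal.mk_le_aleph0_iff.1 hSc.le
  have hN : Nonempty S := by
    rw [← Cardinal.mk_ne_zero_iff, hSc]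
    exact aleph0_ne_zero
  obtain ⟨φ, hφ⟩ := exists_surjective_nat S
  let a : ℕ → Cardinal.{0} := fun n => (Ordinal.ToType.mk.symm (φ n).1).1.card
  have ha : ∀ n, a n < κ := fun n => Cardinal.lt_ord.1 (Ordinal.ToType.mk.symm (φ n).1).2
  let k : ℕ → Cardinal.{0} := fun n => Nat.rec (max ℵ₀ (a 0)) (fun n c => max c (a (n + 1))) n
  have hk0 : k 0 = max ℵ₀ (a 0) := rfl
  have hks : ∀ n, k (n + 1) = max (k n) (a (n + 1)) := fun n => rfl
  have hmono : Monotone k := monotone_nat_of_le_succ fun n => by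
    rw [hks]
    exact le_max_left _ _
  refine ⟨k, hmono, ?_, ?_, ?_⟩
  · intro n
    refine le_trans ?_ (hmono (Nat.zero_le n))
    rw [hk0]
    exact le_max_left _ _
  · intro n
    induction n with
    | zero =>
      rw [hk0]
      exact max_lt hκ0 (ha 0)
    | succ n ih =>
      rw [hks]
      exact max_lt ih (ha _)
  · intro μ hμ
    have h1 : μ.ord < κ.ord := Cardinal.ord_lt_ord.2 hμ
    obtain ⟨y, hy, hay⟩ := hS (Ordinal.ToType.mk ⟨μ.ord, h1⟩)
    have h2 := (Ordinal.ToType.mk (o := κ.ord)).symm.monotone hay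
    simp only [OrderIso.symm_apply_apply] at h2
    obtain ⟨n, hn⟩ := hφ ⟨y, hy⟩
    refine ⟨n, ?_⟩
    have h3 : μ ≤ a n := by
      have h4 := Ordinal.card_le_card (show μ.ord ≤ (Ordinal.ToType.mk.symm (φ n).1).1 by
        rw [hn]
        exact h2)
      rwa [Cardinal.card_ord] at h4
    refine h3.trans ?_
    cases n with
    | zero =>
      rw [hk0]
      exact le_max_right _ _
    | succ n =>
      rw [hks]
      exact le_max_right _ _

end Pool.Agent.CV
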