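import Mathlib
import Pool.Agent.Lib_helper80.CV.Dec

/-!
# CV (MP_931ca8_lc): free sets at cardinals of countable cofinality
-/

set_option autoImplicit false
set_option linter.unusedSectionVars false
set_option linter.deprecated false

open Cardinal Ordinal Set

namespace Pool.Agent.CV

open Pool.Agent.H68.OG

variable {V : Type} [LinearOrder V] [WellFoundedLT V] [Nonempty V]

theorem exists_free_cof {κ : Cardinal.{0}} (hκ0 : ℵ₀ < κ) (hcof : κ.ord.cof = ℵ₀)
    {f : V → Finset V} (hf : Chn f) {δ : Ordinal.{0}} (hδ : δ.card ≤ κ) {A : Set V}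
    (hA : TG A (κ.ord * δ)) :
    ∃ X : Set V, X ⊆ A ∧ (∀ x ∈ X, ∀ y ∈ X, x ≠ y → y ∉ f x) ∧ TG X (κ.ord * δ) := by
  classical
  have hreg : ¬ κ.IsRegular := by
    intro h
    rw [h.cof_eq] at hcof
    exact absurd hcof hκ0.ne'
  obtain ⟨t, ht⟩ := exists_exp hκ0.le
  obtain ⟨k, hkm, hk0, hkκ, hkc⟩ := exists_seq hκ0 hcof
  set S : Ordinal.{0} := κ.ord * δ with hS
  have hScard : S.card ≤ κ := by
    rw [hS, Ordinal.card_mul, Cardinal.card_ord]
    exact Cardinal.mul_le_of_le hκ0.le le_rfl hδ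
  let L := (Order.succ S).ToType
  let o : L → Ordinal.{0} := fun l => (Ordinal.ToType.mk.symm l).1
  have hoS : ∀ l, o l ≤ S := fun l => Order.lt_succ_iff.1 (Ordinal.ToType.mk.symm l).2
  have hoc : ∀ l, (o l).card ≤ κ := fun l => (Ordinal.card_le_card (hoS l)).trans hScard
  have hol : ∀ b ≤ S, ∃ l, o l = b := by
    intro b hb
    refine ⟨Ordinal.ToType.mk ⟨b, Order.lt_succ_iff.2 hb⟩, ?_⟩
    simp only [o, OrderIso.symm_apply_apply]
  have ho : ∀ l b, b ≤ o l → ∃ l', o l' = b := fun l b hb => hol b (hb.trans (hoS l))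
  -- the first state
  have hdvd : (ω : Ordinal.{0}) ^ t ∣ S := by
    rw [ht, hS]
    exact Dvd.intro δ rfl
  obtain ⟨P, hP, B, s, hst, hsS, hBA, hBT, hBX⟩ := rt_all t S hdvd V A hA
  choose l hl using fun p => hol (s p) (hsS p)
  let Inv : ℕ → Set V × Set (Set V × L) → Prop := fun n c =>
    #c.2 ≤ k n ∧ (∀ p ∈ c.2, t ≤ o p.2) ∧ ∀ p ∈ c.2, TG (c.1 ∩ p.1) (ω ^ o p.2)
  let c₀ : Set V × Set (Set V × L) := (A, Set.range fun p => (B p, l p))
  have hc₀ : Inv 0 c₀ := by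
    refine ⟨?_, ?_, ?_⟩
    · refine le_trans ?_ (hk0 0)
      have : (Set.range fun p => (B p, l p)).Finite := Set.finite_range _
      exact this.lt_aleph0.le
    · rintro _ ⟨p, rfl⟩
      simp only
      rw [hl]
      exact hst p
    · rintro _ ⟨p, rfl⟩
      simp only [c₀]
      rw [hl]
      exact (hBT p).mono fun v hv => ⟨hBA p hv, hv⟩
  have hstep : ∀ (n : ℕ) (c : Set V × Set (Set V × L)), ∃ (X : Set V)
      (c' : Set V × Set (Set V × L)), Inv n c → Inv (n + 1) c' ∧ X ⊆ c.1 ∧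
      (∀ x ∈ X, ∀ y ∈ X, x ≠ y → y ∉ f x) ∧ c'.1 ⊆ c.1 ∧
      (∀ v ∈ c'.1, v ∉ X ∧ (∀ u ∈ f v, u ∉ X) ∧ ∀ x ∈ X, v ∉ f x) ∧
      (∀ p ∈ c.2, o p.2 = t → k n ≤ #(X ∩ p.1 : Set V)) ∧ c.2 ⊆ c'.2 ∧
      ∀ p ∈ c.2, Expd V t (o p.2) (k n) → ∃ (ι : Type) (q : ι → Set V × L),
        (∀ i, q i ∈ c'.2) ∧ (∀ i, o (q i).2 < o p.2) ∧
        ∀ Y : Set V, (∀ i, TG (Y ∩ (q i).1) (ω ^ o (q i).2)) → TG (Y ∩ p.1) (ω ^ o p.2) := by
    intro n c
    by_cases hc : Inv n c
    · obtain ⟨X, C', R', h1, h2, h3, h4, h5, h6, h7, h8, h9, h10⟩ :=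
        step (hk0 n) (succ_lt_of_sing hreg (hk0 n) (hkκ n)) hf ht o ho hc.1 hc.2.1 hc.2.2
      exact ⟨X, (C', R'), fun _ => ⟨⟨h7.trans (hkm (Nat.le_succ n)), h8, h9⟩, h1, h2, h3, h4, h5,
        h6, h10⟩⟩
    · exact ⟨∅, c, fun h => absurd h hc⟩
  choose X₀ nx hnx using hstep
  let St : ℕ → Set V × Set (Set V × L) := fun n => Nat.rec c₀ (fun n c => nx n c) n
  have hSt0 : St 0 = c₀ := rfl
  have hSts : ∀ n, St (n + 1) = nx n (St n) := fun n => rfl
  have hinv : ∀ n, Inv n (St n) := by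
    intro n
    induction n with
    | zero => exact hc₀
    | succ n ih =>
      rw [hSts]
      exact (hnx n (St n) ih).1
  let X : ℕ → Set V := fun n => X₀ n (St n)
  have hX := fun n => (hnx n (St n) (hinv n)).2
  have hCm : ∀ n m, n ≤ m → (St m).1 ⊆ (St n).1 := by
    intro n m h
    induction m, h using Nat.le_induction with
    | base => exact subset_rfl
    | succ m _ ih => exact ((hX m).2.2.1).trans ih
  have hRm : ∀ n m, n ≤ m → (St n).2 ⊆ (St m).2 := by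
    intro n m h
    induction m, h using Nat.le_induction with
    | base => exact subset_rfl
    | succ m _ ih => exact ih.trans ((hX m).2.2.2.2.2.1)
  have hlt : ∀ n m, n < m → ∀ x ∈ X n, ∀ y ∈ X m, y ∉ f x ∧ x ∉ f y := by
    intro n m h x hx y hy
    have h1 : y ∈ (St (n + 1)).1 := hCm (n + 1) m h ((hX m).1 hy)
    have h2 := (hX n).2.2.2.1 y h1
    exact ⟨h2.2.2 x hx, fun h3 => h2.2.1 x h3 hx⟩
  have hfin : ∀ (b : Ordinal.{0}) (n : ℕ), ∀ p ∈ (St n).2, o p.2 = b →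
      TG ((⋃ m, X m) ∩ p.1) (ω ^ b) := by
    intro b
    induction b using WellFoundedLT.induction with
    | ind b IH =>
      intro n p hp hb
      have htb : t ≤ b := by
        rw [← hb]
        exact (hinv n).2.1 p hp
      rcases htb.eq_or_lt with h | h
      · rw [← h, ht, tg_card]
        by_contra hcon
        rw [not_le] at hcon
        have h1 : max ℵ₀ #((⋃ m, X m) ∩ p.1 : Set V) < κ := max_lt hκ0 hcon
        obtain ⟨m, hm⟩ := hkc _ (succ_lt_of_sing hreg (le_max_left _ _) h1)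
        have h2 := (hX (max n m)).2.2.2.2.1 p (hRm n _ (le_max_left _ _) hp) (hb.trans h.symm)
        have h3 : #(X (max n m) ∩ p.1 : Set V) ≤ #((⋃ m, X m) ∩ p.1 : Set V) :=
          Cardinal.mk_le_mk_of_subset (Set.inter_subset_inter_left _ (Set.subset_iUnion X _))
        have h4 : Order.succ (max ℵ₀ #((⋃ m, X m) ∩ p.1 : Set V)) ≤
            max ℵ₀ #((⋃ m, X m) ∩ p.1 : Set V) :=
          (hm.trans (hkm (le_max_right n m))).trans ((h2.trans h3).trans (le_max_right _ _))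
        exact absurd h4 (not_le.2 (Order.lt_succ _))
      · obtain ⟨μ, hμ, hE⟩ := exists_expd (V := V) hreg hκ0 h (hb ▸ hoc p.2)
        obtain ⟨m, hm⟩ := hkc μ hμ
        obtain ⟨ι, q, hq, hqo, hqY⟩ := (hX (max n m)).2.2.2.2.2.2 p
          (hRm n _ (le_max_left _ _) hp)
          (hb ▸ hE.mono (hm.trans (hkm (le_max_right n m))))
        rw [← hb]
        refine hqY _ fun i => ?_
        exact IH _ (hb ▸ hqo i) (max n m + 1) (q i) (hq i) rfl
  refine ⟨⋃ m, X m, ?_, ?_, ?_⟩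
  · refine Set.iUnion_subset fun n => ?_
    exact ((hX n).1).trans (hCm 0 n (Nat.zero_le n))
  · intro x hx y hy hne
    obtain ⟨n, hn⟩ := Set.mem_iUnion.1 hx
    obtain ⟨m, hm⟩ := Set.mem_iUnion.1 hy
    rcases lt_trichotomy n m with h | h | h
    · exact (hlt n m h x hn y hm).1
    · subst h
      exact (hX n).2.1 x hn y hm hne
    · exact (hlt m n h y hm x hn).2
  · refine (hBX (⋃ m, X m) fun p => ?_).mono Set.inter_subset_left
    have h1 := hfin (s p) 0 (B p, l p) ⟨p, rfl⟩ (hl p)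
    exact h1

end Pool.Agent.CV
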