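import Mathlib
import Pool.Agent.Lib_helper80.CV.Pi
import Pool.Agent.Lib_helper80.CQ.Levels

/-!
# CV (MP_931ca8_lc): all levels at once
-/

set_option autoImplicit false
set_option linter.unusedSectionVars false
set_option linter.deprecated false

open Cardinal Ordinal Set

namespace Pool.Agent.CV

open Pool.Agent.H68.OG

/-- Induction on the cardinality: a class of pairs (cardinal, part) which is good at each
level. -/
theorem pi_levels_of (Q : Cardinal.{0} → Ordinal.{0} → Prop)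
    (hQ : ∀ κ : Cardinal.{0}, ℵ₀ < κ → ∀ β : Ordinal.{0}, β < (Order.succ κ).ord → ω ∣ β →
      Q κ β → PI (β % κ.ord) → PI β)
    (hQ0 : ∀ κ : Cardinal.{0}, ℵ₀ < κ → ∀ β : Ordinal.{0}, β < κ.ord → Q κ β)
    (α : Ordinal.{0}) : ω ∣ α →
    (∀ κ : Cardinal.{0}, ℵ₀ < κ → Q κ (α % (Order.succ κ).ord)) → PI α := by
  induction α using WellFoundedLT.induction with
  | ind α IH =>
    intro hdvd hlev
    by_cases hc : α.card ≤ ℵ₀
    · exact pi_countable hdvd hc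
    · rw [not_le] at hc
      set κ := α.card with hκ
      have hαlt : α < (Order.succ κ).ord := by
        rw [Cardinal.lt_ord]
        exact Order.lt_succ κ
      have hκα : κ.ord ≤ α := Cardinal.ord_le.2 le_rfl
      have hκ0 : κ.ord ≠ 0 := (zero_lt_one.trans (one_lt_ord' hc.le)).ne'
      have hP := hlev κ hc
      rw [Ordinal.mod_eq_of_lt hαlt] at hP
      have hdm := Ordinal.div_add_mod α κ.ord
      have hεκ : α % κ.ord < κ.ord := Ordinal.mod_lt α hκ0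
      have hωκ : ω ∣ κ.ord := by
        have := ord_dvd_ord le_rfl hc.le
        rwa [Cardinal.ord_aleph0] at this
      have hωε : ω ∣ α % κ.ord := by
        rw [← hdm] at hdvd
        exact (Ordinal.dvd_add_iff (Dvd.dvd.mul_right hωκ _)).1 hdvd
      refine hQ κ hc α hαlt hdvd hP (IH _ (hεκ.trans_le hκα) hωε ?_)
      intro κ' h0
      rcases lt_or_ge κ' κ with h | h
      · obtain ⟨c, hc'⟩ := ord_dvd_ord (μ := Order.succ κ') (κ := κ)
          (h0.le.trans (Order.le_succ κ')) (Order.succ_le_of_lt h)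
        have h5 : α % (Order.succ κ').ord = (α % κ.ord) % (Order.succ κ').ord := by
          conv_lhs => rw [← hdm]
          rw [hc', mul_assoc, Ordinal.mul_add_mod_self]
        rw [← h5]
        exact hlev κ' h0
      · exact hQ0 κ' h0 _ ((Ordinal.mod_le _ _).trans_lt
          (hεκ.trans_le (Cardinal.ord_le_ord.2 h)))

theorem card_div_le {κ : Cardinal.{0}} (hκ : ℵ₀ < κ) {β : Ordinal.{0}}
    (hβ : β < (Order.succ κ).ord) : (β / κ.ord).card ≤ κ := by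
  have h5 : 1 * (β / κ.ord) ≤ κ.ord * (β / κ.ord) := mul_le_mul_left (one_lt_ord' hκ.le).le _
  rw [one_mul] at h5
  refine (Ordinal.card_le_card (h5.trans (Ordinal.mul_div_le _ _))).trans ?_
  exact Order.lt_succ_iff.1 (Cardinal.lt_ord.1 hβ)

theorem dvd_mod {κ : Cardinal.{0}} (hκ : ℵ₀ < κ) {β : Ordinal.{0}} (hd : ω ∣ β) :
    ω ∣ β % κ.ord := by
  have hωκ : ω ∣ κ.ord := by
    have := ord_dvd_ord le_rfl hκ.le
    rwa [Cardinal.ord_aleph0] at this
  rw [← Ordinal.div_add_mod β κ.ord] at hd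
  exact (Ordinal.dvd_add_iff (Dvd.dvd.mul_right hωκ _)).1 hd

/-- one level of countable cofinality -/
theorem level_cof {κ : Cardinal.{0}} (hκ : ℵ₀ < κ) (hcof : κ.ord.cof = ℵ₀) {β : Ordinal.{0}}
    (hβ : β < (Order.succ κ).ord) (hd : ω ∣ β) (h : PI (β % κ.ord)) : PI β := by
  have hκ0 : κ.ord ≠ 0 := (zero_lt_one.trans (one_lt_ord' hκ.le)).ne'
  rw [← Ordinal.div_add_mod β κ.ord]
  exact (pi_iff_cof hκ hcof _ _ (card_div_le hκ hβ) (Ordinal.mod_lt β hκ0) (dvd_mod hκ hd)).2 h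

/-- a small level -/
theorem level_small {κ ν : Cardinal.{0}} (hν : ℵ₀ ≤ ν) (hνκ : ν < κ) {β : Ordinal.{0}}
    (hβ : β < κ.ord ^ (ν.ord + 2)) (hd : ω ∣ β) (h : PI (β % κ.ord)) : PI β := by
  have hκ : ℵ₀ < κ := hν.trans_lt hνκ
  have hκ0 : κ.ord ≠ 0 := (zero_lt_one.trans (one_lt_ord' hκ.le)).ne'
  have hlt : κ.ord * (β / κ.ord) < κ.ord ^ (ν.ord + 2) :=
    (Ordinal.mul_div_le _ _).trans_lt hβ
  rw [← Ordinal.div_add_mod β κ.ord]
  rcases eq_or_ne (β % κ.ord) 0 with h0 | h0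
  · rw [h0, add_zero]
    exact pi_mul hν hνκ _ hlt
  · exact (pi_iff' hν hνκ _ hlt _ (Ordinal.mod_lt β hκ0)
      (Ordinal.isSuccLimit_iff_omega0_dvd.2 ⟨h0, dvd_mod hκ hd⟩)).2 h

/-- a regular level with the omission property -/
theorem level_part {κ : Cardinal.{0}} (hr : κ.IsRegular) (hκ : ℵ₀ < κ) {β : Ordinal.{0}}
    (hβ : β < (Order.succ κ).ord) (hP : CQ.Part κ (β / κ.ord)) (hd : ω ∣ β)
    (h : PI (β % κ.ord)) : PI β := by
  have hκ0 : κ.ord ≠ 0 := (zero_lt_one.trans (one_lt_ord' hκ.le)).ne'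
  rw [← Ordinal.div_add_mod β κ.ord]
  exact (CQ.pi_iff_of_part hr hκ _ _ (card_div_le hκ hβ) hP (Ordinal.mod_lt β hκ0)
    (dvd_mod hκ hd)).2 h

theorem small_of_lt {κ : Cardinal.{0}} (hκ : ℵ₀ < κ) {β : Ordinal.{0}} (hβ : β < κ.ord) :
    ∃ ν : Cardinal.{0}, ℵ₀ ≤ ν ∧ ν < κ ∧ β < κ.ord ^ (ν.ord + 2) := by
  refine ⟨ℵ₀, le_rfl, hκ, hβ.trans_le ?_⟩
  calc κ.ord = κ.ord ^ (1 : Ordinal.{0}) := (Ordinal.opow_one _).symm
    _ ≤ κ.ord ^ ((ℵ₀ : Cardinal.{0}).ord + 2) := by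
      refine Ordinal.opow_le_opow_right (zero_lt_one.trans (one_lt_ord' hκ.le)) ?_
      refine (one_lt_ord' le_rfl).le.trans ?_
      exact le_self_add

/-- small levels at the cardinals of uncountable cofinality suffice -/
theorem pi_small (α : Ordinal.{0}) (hd : ω ∣ α)
    (h : ∀ κ : Cardinal.{0}, ℵ₀ < κ → κ.ord.cof ≠ ℵ₀ → ∃ ν : Cardinal.{0}, ℵ₀ ≤ ν ∧ ν < κ ∧
      α % (Order.succ κ).ord < κ.ord ^ (ν.ord + 2)) : PI α := by
  refine pi_levels_of (fun κ β => κ.ord.cof ≠ ℵ₀ → ∃ ν : Cardinal.{0}, ℵ₀ ≤ ν ∧ ν < κ ∧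
      β < κ.ord ^ (ν.ord + 2)) ?_ ?_ α hd h
  · intro κ hκ β hβ hdβ hQ hP
    by_cases hcof : κ.ord.cof = ℵ₀
    · exact level_cof hκ hcof hβ hdβ hP
    · obtain ⟨ν, hν, hνκ, hlt⟩ := hQ hcof
      exact level_small hν hνκ hlt hdβ hP
  · exact fun κ hκ β hβ _ => small_of_lt hκ hβ

/-- the omission property at the regular cardinals and no part at the singular cardinals of
uncountable cofinality suffice -/
theorem pi_levels' (α : Ordinal.{0}) (hd : ω ∣ α)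
    (hs : ∀ κ : Cardinal.{0}, ℵ₀ < κ → ¬ κ.IsRegular → κ.ord.cof ≠ ℵ₀ →
      α % (Order.succ κ).ord < κ.ord)
    (hr : ∀ κ : Cardinal.{0}, κ.IsRegular → ℵ₀ < κ →
      CQ.Part κ (α % (Order.succ κ).ord / κ.ord)) : PI α := by
  refine pi_levels_of (fun κ β => (¬ κ.IsRegular → κ.ord.cof ≠ ℵ₀ → β < κ.ord) ∧
    (κ.IsRegular → CQ.Part κ (β / κ.ord))) ?_ ?_ α hd
    fun κ hκ => ⟨hs κ hκ, fun h => hr κ h hκ⟩
  · intro κ hκ β hβ hdβ hQ hP
    by_cases hreg : κ.IsRegular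
    · exact level_part hreg hκ hβ (hQ.2 hreg) hdβ hP
    · by_cases hcof : κ.ord.cof = ℵ₀
      · exact level_cof hκ hcof hβ hdβ hP
      · have h1 := hQ.1 hreg hcof
        rwa [Ordinal.mod_eq_of_lt h1] at hP
  · intro κ hκ β hβ
    refine ⟨fun _ _ => hβ, fun h => ?_⟩
    rw [Ordinal.div_eq_zero_of_lt hβ]
    exact CQ.part_zero hκ.le

end Pool.Agent.CV
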